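import Pool.Agent.TH410.Equivalence

/-!
The linear partition rank bound holds for one alphabet with at least two letters if and only if
it holds for every such alphabet, in particular if and only if it holds for the whole field.
-/

namespace Pool.Agent.Results.MP_d91f4a_co.AlphabetEquivalence

open Pool.Agent.TH410

/-- For fixed `p` and `d ≥ 2` the assertion of the problem does not depend on the alphabet. -/
theorem result (p : ℕ) [Fact p.Prime] (d : ℕ) (hd : 2 ≤ d) (S S' : Finset (ZMod p))
    (hS : 2 ≤ S.card) (hS' : 2 ≤ S'.card) : LinearBound p d S ↔ LinearBound p d S' :=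
  ⟨fun h => (h.to_univ hd hS).of_univ hd hS', fun h => (h.to_univ hd hS').of_univ hd hS⟩

end Pool.Agent.Results.MP_d91f4a_co.AlphabetEquivalence
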