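import Pool.Agent.TH410.Compare

/-!
Bias on a restricted alphabet forces analytic rank at most a constant times `log (1 / ε)`, for
every order and every alphabet with at least two letters.
-/

namespace Pool.Agent.Results.MP_d91f4a_co.AnalyticRankBound

open Pool.Agent.TH410

/-- The analytic rank `- log_p E_x ω_p^(m(x))`. -/
noncomputable def analyticRank {p : ℕ} [Fact p.Prime] {d n : ℕ} (m : Form p d n) : ℝ :=
  -Real.logb p (bias Finset.univ 1 m).re

theorem result (p : ℕ) [Fact p.Prime] (d : ℕ) (hd : 2 ≤ d) (S : Finset (ZMod p))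
    (hS : 2 ≤ S.card) :
    ∃ C : ℝ, 0 < C ∧ ∀ (n : ℕ) (ε : ℝ) (m : Form p d n), 0 < ε → ε ≤ 1 →
      (∃ t : ZMod p, t ≠ 0 ∧ ε ≤ ‖bias S t m‖) →
      analyticRank m ≤ C * Real.log (1 / ε) := by
  obtain ⟨e, rfl⟩ : ∃ e, d = e + 2 := ⟨d - 2, by omega⟩
  obtain ⟨c, hc0, hc1, hc⟩ := exists_exponent hS e
  have hp : (1 : ℝ) < (p : ℝ) := by exact_mod_cast (Fact.out : p.Prime).one_lt
  have hlogp : 0 < Real.log p := Real.log_pos hp
  refine ⟨1 / (c * Real.log p), by positivity, ?_⟩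
  intro n ε m hε hε1 ⟨t, ht, hbias⟩
  have hB0 := bias_univ_pos m
  have hre : (bias Finset.univ 1 m).re = ‖bias Finset.univ 1 m‖ := by
    rw [norm_bias_univ one_ne_zero, bias_univ one_ne_zero, Complex.ofReal_re]
  have h1 : ε ≤ ‖bias Finset.univ 1 m‖ ^ c := hbias.trans (hc n m t ht)
  have h2 := Real.log_le_log hε h1
  rw [Real.log_rpow hB0] at h2
  unfold analyticRank
  rw [hre, Real.logb, one_div, one_div, Real.log_inv, ← neg_div, div_le_iff₀ hlogp]
  have h3 : (c * Real.log p)⁻¹ * -Real.log ε * Real.log p = -Real.log ε / c := by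
    field_simp
  rw [h3, le_div_iff₀ hc0]
  linarith

end Pool.Agent.Results.MP_d91f4a_co.AnalyticRankBound
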