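import Pool.Agent.TH410.Compare

/-!
The linear partition rank bound for bilinear and trilinear forms, for every prime and every
alphabet with at least two letters.
-/

namespace Pool.Agent.Results.MP_d91f4a_co.OrdersTwoAndThree

open Pool.Agent.TH410

/-- The assertion of the problem for `d = 2` and `d = 3`, all `p`, all alphabets. -/
theorem result (p : ℕ) [Fact p.Prime] (d : ℕ) (hd : d = 2 ∨ d = 3) (S : Finset (ZMod p))
    (hS : 2 ≤ S.card) : LinearBound p d S := by
  rcases hd with rfl | rfl
  · exact linearBound_two_univ.of_univ (by norm_num) hS
  · exact linearBound_three_univ.of_univ (by norm_num) hS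

end Pool.Agent.Results.MP_d91f4a_co.OrdersTwoAndThree
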